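import Pool.Agent.H70.SplitDefs

set_option autoImplicit false

namespace Pool.Agent.Results.MP_abda90_al.Counterexample

open Pool.Agent.H70.SplitDefs MonoidAlgebra

abbrev G := Multiplicative (ℤ × ℤ)

noncomputable def aug : MonoidAlgebra ℝ G →ₐ[ℝ] ℝ := MonoidAlgebra.lift ℝ ℝ G 1

theorem aug_el (γ : G) : aug (el γ) = 1 := by simp [aug, el]

theorem aug_inv (x : MonoidAlgebra ℝ G) : aug (mapDomain (fun γ : G => γ⁻¹) x) = aug x := by
  induction x using MonoidAlgebra.induction_linear with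
  | zero => simp
  | add x y hx hy => rw [mapDomain_add, map_add, map_add, hx, hy]
  | single a b => simp [aug]

theorem aug_d1 (s : Fin 2) : aug (d1 gens rels () s) = 0 := by
  fin_cases s <;> simp [d1, rels, fox, aug_el]

theorem inv_one_sub (γ : G) : mapDomain (fun γ : G => γ⁻¹) (1 - el γ) = 1 - el γ⁻¹ := by
  have h := mapDomain_add (R := ℝ) (fun γ : G => γ⁻¹) (1 - el γ) (el γ)
  rw [sub_add_cancel] at h
  rw [eq_sub_iff_add_eq]
  have e1 : mapDomain (fun γ : G => γ⁻¹) (el γ) = el γ⁻¹ := by simp [el]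
  have e2 : mapDomain (fun γ : G => γ⁻¹) (1 : MonoidAlgebra ℝ G) = 1 := by
    simp [MonoidAlgebra.one_def]
  rw [← e1, ← h, e2]

theorem el_inv (γ : G) : el γ⁻¹ * el γ = 1 := by
  simp [el, single_mul_single, MonoidAlgebra.one_def]

theorem result : ∃ a : Matrix (Fin 2) (Fin 2) (MonoidAlgebra ℝ (Multiplicative (ℤ × ℤ))),
    adj (d0 gens) * a * d0 gens = 0 ∧
    ¬ ∃ (x : Matrix Unit (Fin 2) (MonoidAlgebra ℝ (Multiplicative (ℤ × ℤ))))
        (y : Matrix (Fin 2) Unit (MonoidAlgebra ℝ (Multiplicative (ℤ × ℤ)))),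
      a = adj (d1 gens rels) * x + y * d1 gens rels := by
  refine ⟨!![0, el (gens 0); -el (gens 1), 0], ?_, ?_⟩
  · refine Matrix.ext fun i j => ?_
    simp only [Matrix.mul_apply, Fin.sum_univ_two, adj, d0, inv_one_sub, Matrix.of_apply,
      Matrix.cons_val', Matrix.cons_val_zero, Matrix.cons_val_one, Matrix.cons_val_fin_one,
      Matrix.zero_apply]
    linear_combination (1 - el (gens 0)) * el_inv (gens 1) - (1 - el (gens 1)) * el_inv (gens 0)
  · rintro ⟨x, y, h⟩
    have := congrArg (fun a => aug (a 0 1)) h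
    simp [Matrix.mul_apply, adj, aug_inv, aug_d1, aug_el] at this

end Pool.Agent.Results.MP_abda90_al.Counterexample
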